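import Pool.Agent.Work.MP_5ba30e_pr.Final1

/-!
# MP_5ba30e_pr, Q1 : ball volume growth in random spanning trees in random environment

Full positive answer to Q1: if `diam = n^{α+o(1)}` with high averaged probability, then
for every fixed `l ∈ (0,1]`, with `r = l * diam`, the ball of radius `r` around a typical
vertex has `r^{1/α+o(1)}` vertices with high averaged probability.

The model (`RST.Env`, `RST.mu`, `RST.trees`, `RST.wt`, `RST.Zf`, `RST.gibbs`, `RST.ballT`,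
`RST.Phat`, `RST.PhatV`) is in `Pool/Agent/Work/MP_5ba30e_pr/Model.lean`.
-/

open Filter
open scoped Topology

namespace Pool.Agent.Results.MP_5ba30e_pr.VolumeGrowth

/-- Q1 of MP_5ba30e_pr -/
theorem result (β : ℕ → ℝ) (α : ℝ) (hβ : ∀ n, 0 ≤ β n) (hα : 0 < α) (hα1 : α < 1)
    (hdiam : ∀ ε > 0, Tendsto (fun n : ℕ => RST.Phat n (β n) fun T =>
      (n : ℝ) ^ (α - ε) ≤ T.diam ∧ (T.diam : ℝ) ≤ (n : ℝ) ^ (α + ε)) atTop (𝓝 1))
    (l : ℝ) (hl : 0 < l) (hl1 : l ≤ 1) (ε : ℝ) (hε : 0 < ε) :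
    Tendsto (fun n : ℕ => RST.PhatV n (β n) fun T v =>
      (l * T.diam) ^ (1 / α - ε) ≤ RST.ballT T v (l * T.diam) ∧
        (RST.ballT T v (l * T.diam) : ℝ) ≤ (l * T.diam) ^ (1 / α + ε)) atTop (𝓝 1) :=
  RST.q1 β α hβ hα hα1 hdiam l hl hl1 ε hε

end Pool.Agent.Results.MP_5ba30e_pr.VolumeGrowth
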